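import Mathlib
import Pool.Agent.Lib_helper15.Basic

/-!
Hyperinvariant subspaces of bilateral (operator) weighted shifts: definitions and the statements of
the modules (helper15).
-/

set_option autoImplicit false

open Filter Topology

namespace Pool.Agent.Lib_helper15.Shift

/-- The fibre `ℂ^d` with its Euclidean norm. -/
abbrev E (d : ℕ) : Type := EuclideanSpace ℂ (Fin d)

/-- Operators on the fibre. -/
abbrev Mat (d : ℕ) : Type := E d →L[ℂ] E d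

/-- The folding map `ℤ/4Q → ℤ`: with the representative `v ∈ (-2Q, 2Q]` it is `v` for `|v| ≤ Q`,
`2Q - v` for `v > Q` and `-2Q - v` for `v < -Q`. -/
def fold (Q : ℕ) (n : ZMod (4 * Q)) : ℤ :=
  if (Q : ℤ) < n.valMinAbs then 2 * Q - n.valMinAbs
  else if n.valMinAbs < -(Q : ℤ) then -(2 * Q) - n.valMinAbs
  else n.valMinAbs

/-- `G n` are invertible operators with inverses `Gi n` and moderate variation. -/
structure Moderate (d : ℕ) (G Gi : ℤ → Mat d) (c : ℝ) : Prop where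
  left : ∀ n, Gi n * G n = 1
  right : ∀ n, G n * Gi n = 1
  up : ∀ n, ‖G (n + 1) * Gi n‖ ≤ c
  down : ∀ n, ‖G n * Gi (n + 1)‖ ≤ c

/-- Module A: a flag of subspaces with steps of dimension at most `d` and a window of `4 d`
orthonormal vectors. -/
def FlagStmt : Prop :=
  ∀ (K : Type) [NormedAddCommGroup K] [InnerProductSpace ℂ K] [FiniteDimensional ℂ K]
    (ι : Type) [Fintype ι] (e : ι → K) (d M : ℕ), Orthonormal ℂ e → 1 ≤ d →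
    Fintype.card ι = 4 * d → ∀ V : ℕ → Submodule ℂ K, V 0 = ⊥ → V M = ⊤ →
    (∀ k, V k ≤ V (k + 1)) →
    (∀ k, Module.finrank ℂ (V (k + 1)) ≤ Module.finrank ℂ (V k) + d) →
    ∀ Z : Submodule ℂ K, Module.finrank ℂ K ≤ Module.finrank ℂ Z + d →
    ∃ k, k ≤ M ∧
      (∃ η : K, η ∈ V k ∧ η ∈ Z ∧ ‖η‖ ≤ 1 ∧ ∃ i, 1 / (8 * (d : ℝ)) ≤ ‖inner ℂ (e i) η‖) ∧
      (∃ ξ : K, ξ ∈ (V k)ᗮ ∧ ξ ∈ Z ∧ ‖ξ‖ ≤ 1 ∧ ∃ i, 1 / (8 * (d : ℝ)) ≤ ‖inner ℂ (e i) ξ‖)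

/-- Module B: functions on `ℤ/M` with frequencies in an interval, division by `ω^n - 1`. -/
def GainStmt : Prop :=
  ∀ (M d : ℕ) [NeZero M], 2 ≤ M → ∀ k : ℕ,
    (∀ x : ZMod M → E d, (∀ j : ZMod M, j.val < k → ZMod.dft x j = 0) → x 0 = 0 →
      ∃ x' : ZMod M → E d, (∀ j : ZMod M, j.val < k → ZMod.dft x' j = 0) ∧
        ∀ n, x n = (ZMod.stdAddChar n - 1) • x' n) ∧
    (∀ y : ZMod M → E d, (∀ j : ZMod M, k ≤ j.val → ZMod.dft y j = 0) → y 0 = 0 →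
      ∃ y' : ZMod M → E d, (∀ j : ZMod M, k ≤ j.val → ZMod.dft y' j = 0) ∧
        ∀ n, y n = (ZMod.stdAddChar n - 1) • y' n)

/-- Module C: the finite approximations. -/
def FiniteStmt : Prop :=
  ∀ (d : ℕ) (G Gi : ℤ → Mat d) (c : ℝ), 1 ≤ d → Moderate d G Gi c →
    ∃ C : ℝ, ∀ Q : ℕ, 4 ≤ Q → ∀ [NeZero (4 * Q)], ∃ x y : ZMod (4 * Q) → E d,
      (∀ (s : ZMod (4 * Q)) (B : Mat d), ∑ n, inner ℂ (y n) (B (x (n + s))) = 0) ∧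
      (∑ n, (n.valMinAbs : ℝ) ^ 2 * ‖G (fold Q n) (x n)‖ ^ 2 ≤ C) ∧
      (∑ n, (n.valMinAbs : ℝ) ^ 2 * ‖(Gi (fold Q n)).adjoint (y n)‖ ^ 2 ≤ C) ∧
      (∀ i : ℕ, i < 4 → ‖x i‖ ≤ 1) ∧ (∀ i : ℕ, i < 4 → ‖y i‖ ≤ 1) ∧
      (∃ i : ℕ, i < 4 ∧ ‖x i‖ = 1) ∧ (∃ i : ℕ, i < 4 ∧ ‖y i‖ = 1)

/-- Theorem S: the sequence theorem. -/
def SeqStmt : Prop :=
  ∀ (d : ℕ) (G Gi : ℤ → Mat d) (c : ℝ), 1 ≤ d → Moderate d G Gi c →
    ∃ x y : ℤ → E d, x ≠ 0 ∧ y ≠ 0 ∧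
      Summable (fun n => ‖G n (x n)‖) ∧ Summable (fun n => ‖(Gi n).adjoint (y n)‖) ∧
      ∀ (s : ℤ) (B : Mat d), ∑' n, inner ℂ (y n) (B (x (n + s))) = 0

/-- Module D: the limit. -/
def LimitStmt : Prop := FiniteStmt → SeqStmt

/-- Two-sided orbits of finite dimensional subspaces in uniform duality. -/
structure BlockOrbit {X : Type*} [NormedAddCommGroup X] [NormedSpace ℂ X] (S : X →L[ℂ] X) (d : ℕ)
    (J : ℤ → E d →L[ℂ] X) (R : ℤ → X →L[ℂ] E d) (G Gi : ℤ → Mat d) (C : ℝ) : Prop where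
  SJ : ∀ n, S ∘L J n = J (n + 1)
  RS : ∀ n, R (n + 1) ∘L S = R n
  RJ : ∀ m n, m ≠ n → R m ∘L J n = 0
  RJ' : ∀ n, R n ∘L J n = 1
  left : ∀ n, Gi n * G n = 1
  right : ∀ n, G n * Gi n = 1
  bJ : ∀ n, ‖J n ∘L Gi n‖ ≤ C
  bR : ∀ n, ‖G n ∘L R n‖ ≤ C

/-- Module E (case A of Theorem 1). -/
def OrbitStmt : Prop :=
  SeqStmt → ∀ (X : Type) [NormedAddCommGroup X] [NormedSpace ℂ X] [CompleteSpace X]
    (S : X →L[ℂ] X) (d : ℕ) (J : ℤ → E d →L[ℂ] X) (R : ℤ → X →L[ℂ] E d) (G Gi : ℤ → Mat d)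
    (C c : ℝ), 1 ≤ d → BlockOrbit S d J R G Gi C → (∀ n, ‖G n * Gi (n + 1)‖ ≤ c) →
    HasNontrivialHyperinvariantSubspace S

/-- Module F (case B of Theorem 1). -/
def BurnStmt : Prop :=
  ∀ (X : Type) [NormedAddCommGroup X] [NormedSpace ℂ X] [CompleteSpace X]
    (S : X →L[ℂ] X) (d : ℕ) (J : ℤ → E d →L[ℂ] X) (R : ℤ → X →L[ℂ] E d) (G Gi : ℤ → Mat d)
    (C : ℝ), 1 ≤ d → BlockOrbit S d J R G Gi C → (¬ ∃ c : ℝ, ∀ n, ‖G n * Gi (n + 1)‖ ≤ c) →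
    HasNontrivialHyperinvariantSubspace S

/-- Theorem 1. -/
def MainStmt : Prop :=
  ∀ (X : Type) [NormedAddCommGroup X] [NormedSpace ℂ X] [CompleteSpace X]
    (S : X →L[ℂ] X) (d : ℕ) (J : ℤ → E d →L[ℂ] X) (R : ℤ → X →L[ℂ] E d) (G Gi : ℤ → Mat d)
    (C : ℝ), 1 ≤ d → BlockOrbit S d J R G Gi C → HasNontrivialHyperinvariantSubspace S

/-- Module G: Euclidean coordinates of a finite dimensional subspace (Auerbach type). -/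
def AuerbachStmt : Prop :=
  ∀ (d : ℕ), ∃ C : ℝ, ∀ (X : Type) [NormedAddCommGroup X] [NormedSpace ℂ X]
    (J : E d →L[ℂ] X), Function.Injective J →
    ∃ G Gi : Mat d, Gi * G = 1 ∧ G * Gi = 1 ∧ ‖J ∘L Gi‖ ≤ C ∧ ∀ h : E d, ‖G h‖ ≤ C * ‖J h‖

end Pool.Agent.Lib_helper15.Shift
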