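import Pool.Agent.Lib_helper15.Shift.Defs

/-!
Module A: intermediate subspaces of a flag with respect to a window (helper15).
-/

set_option autoImplicit false

open Filter Topology

namespace Pool.Agent.Lib_helper15.Shift

section

variable {K : Type} [NormedAddCommGroup K] [InnerProductSpace ℂ K] [FiniteDimensional ℂ K]
  {ι : Type} [Fintype ι]

/-- The weight of the window `e` in the subspace `V`. -/
noncomputable def wt (e : ι → K) (V : Submodule ℂ K) : ℝ := ∑ i, ‖V.starProjection (e i)‖ ^ 2

theorem norm_proj_sq (W : Submodule ℂ K) (x : K) :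
    ‖W.starProjection x‖ ^ 2 =
      ∑ j, ‖inner ℂ ((stdOrthonormalBasis ℂ W j : W) : K) x‖ ^ 2 := by
  set b := stdOrthonormalBasis ℂ W
  have h1 : ‖W.starProjection x‖ = ‖W.orthogonalProjectionOnto x‖ := rfl
  rw [h1, ← b.sum_sq_norm_inner_right (W.orthogonalProjectionOnto x)]
  refine Finset.sum_congr rfl (fun j _ => ?_)
  congr 2
  have h2 := W.inner_orthogonalProjectionOnto_eq_of_mem_left (b j) x
  rw [← h2]

theorem wt_le_finrank {e : ι → K} (he : Orthonormal ℂ e) (W : Submodule ℂ K) :
    wt e W ≤ Module.finrank ℂ W := by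
  unfold wt
  simp_rw [norm_proj_sq W]
  rw [Finset.sum_comm]
  have h1 : ∀ j, ∑ i, ‖inner ℂ ((stdOrthonormalBasis ℂ W j : W) : K) (e i)‖ ^ 2 ≤ 1 := by
    intro j
    have h2 := he.sum_inner_products_le (s := Finset.univ)
      ((stdOrthonormalBasis ℂ W j : W) : K)
    have h3 : ‖((stdOrthonormalBasis ℂ W j : W) : K)‖ = 1 :=
      (stdOrthonormalBasis ℂ W).orthonormal.1 j
    rw [h3] at h2
    refine le_trans (le_of_eq ?_) (h2.trans (by norm_num))
    refine Finset.sum_congr rfl (fun i _ => ?_)
    rw [norm_inner_symm]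
  calc ∑ j, ∑ i, ‖inner ℂ ((stdOrthonormalBasis ℂ W j : W) : K) (e i)‖ ^ 2
      ≤ ∑ _j : Fin (Module.finrank ℂ W), (1 : ℝ) := Finset.sum_le_sum (fun j _ => h1 j)
    _ = Module.finrank ℂ W := by simp

theorem proj_split {V V' : Submodule ℂ K} (h : V ≤ V') (x : K) :
    (V' ⊓ Vᗮ).starProjection x = V'.starProjection x - V.starProjection x := by
  apply Submodule.eq_starProjection_of_mem_orthogonal
  · refine ⟨?_, ?_⟩
    · exact V'.sub_mem (V'.starProjection_apply_mem x) (h (V.starProjection_apply_mem x))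
    · intro v hv
      rw [inner_sub_right]
      have h1 : inner ℂ v (V'.starProjection x) = inner ℂ v x := by
        have := V'.starProjection_inner_eq_zero x v (h hv)
        rw [inner_sub_left, sub_eq_zero] at this
        have h2 := congrArg (starRingEnd ℂ) this
        rw [inner_conj_symm, inner_conj_symm] at h2
        exact h2.symm
      have h3 : inner ℂ v (V.starProjection x) = inner ℂ v x := by
        have := V.starProjection_inner_eq_zero x v hv
        rw [inner_sub_left, sub_eq_zero] at this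
        have h2 := congrArg (starRingEnd ℂ) this
        rw [inner_conj_symm, inner_conj_symm] at h2
        exact h2.symm
      rw [h1, h3, sub_self]
  · intro v hv
    have h1 : inner ℂ v (x - V'.starProjection x) = 0 := by
      have := V'.sub_starProjection_mem_orthogonal x
      exact this v hv.1
    have h2 : inner ℂ v (V.starProjection x) = 0 := by
      have := hv.2 _ (V.starProjection_apply_mem x)
      rw [← inner_conj_symm, this]
      simp
    have h3 : x - (V'.starProjection x - V.starProjection x) =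
        (x - V'.starProjection x) + V.starProjection x := by abel
    rw [h3, inner_add_right, h1, h2, add_zero]

theorem wt_split {V V' : Submodule ℂ K} (h : V ≤ V') (e : ι → K) :
    wt e V' = wt e V + wt e (V' ⊓ Vᗮ) := by
  unfold wt
  rw [← Finset.sum_add_distrib]
  refine Finset.sum_congr rfl (fun i _ => ?_)
  rw [proj_split h]
  set x := e i
  have h1 : inner ℂ (V.starProjection x) (V'.starProjection x - V.starProjection x) = 0 := by
    have := Submodule.starProjection_apply_mem (V' ⊓ Vᗮ) x
    rw [proj_split h] at this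
    exact this.2 _ (V.starProjection_apply_mem x)
  have h2 := norm_add_sq_eq_norm_sq_add_norm_sq_of_inner_eq_zero _ _ h1
  have h3 : V.starProjection x + (V'.starProjection x - V.starProjection x) =
      V'.starProjection x := by abel
  rw [h3] at h2
  nlinarith [h2]

theorem wt_nonneg (e : ι → K) (V : Submodule ℂ K) : 0 ≤ wt e V :=
  Finset.sum_nonneg (fun _ _ => by positivity)

theorem wt_le_add {e : ι → K} (he : Orthonormal ℂ e) {V V' : Submodule ℂ K} (h : V ≤ V') {d : ℕ}
    (hd : Module.finrank ℂ V' ≤ Module.finrank ℂ V + d) : wt e V' ≤ wt e V + d := by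
  rw [wt_split h e]
  have h1 := wt_le_finrank he (V' ⊓ Vᗮ)
  have h2 := Submodule.finrank_add_inf_finrank_orthogonal h
  have h3 : Module.finrank ℂ (V' ⊓ Vᗮ : Submodule ℂ K) ≤ d := by
    rw [inf_comm] at h2
    omega
  have h4 : (Module.finrank ℂ (V' ⊓ Vᗮ : Submodule ℂ K) : ℝ) ≤ d := by exact_mod_cast h3
  linarith

theorem wt_orthogonal {e : ι → K} (he : Orthonormal ℂ e) (V : Submodule ℂ K) :
    wt e V + wt e Vᗮ = Fintype.card ι := by
  unfold wt
  rw [← Finset.sum_add_distrib]
  have : ∀ i, ‖V.starProjection (e i)‖ ^ 2 + ‖Vᗮ.starProjection (e i)‖ ^ 2 = 1 := by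
    intro i
    rw [← Submodule.norm_sq_eq_add_norm_sq_starProjection, he.1 i]
    norm_num
  simp_rw [this]
  simp

theorem wt_bot (e : ι → K) : wt e (⊥ : Submodule ℂ K) = 0 := by
  unfold wt
  simp

theorem wt_inf_ge {e : ι → K} (he : Orthonormal ℂ e) (V Z : Submodule ℂ K) {d : ℕ}
    (hZ : Module.finrank ℂ K ≤ Module.finrank ℂ Z + d) : wt e V ≤ wt e (V ⊓ Z) + d := by
  apply wt_le_add he inf_le_left
  have h1 := Submodule.finrank_sup_add_finrank_inf_eq V Z
  have h2 := Submodule.finrank_le (V ⊔ Z)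
  omega

theorem exists_of_wt {e : ι → K} {d : ℕ} (hd : 1 ≤ d) (hι : Fintype.card ι = 4 * d)
    (W : Submodule ℂ K) (he : Orthonormal ℂ e) (h : 1 / 2 ≤ wt e W) :
    ∃ η : K, η ∈ W ∧ ‖η‖ ≤ 1 ∧ ∃ i, 1 / (8 * (d : ℝ)) ≤ ‖inner ℂ (e i) η‖ := by
  have hd' : (0 : ℝ) < d := by exact_mod_cast (by omega : 0 < d)
  have h1 : ∃ i, 1 / (8 * (d : ℝ)) ≤ ‖W.starProjection (e i)‖ ^ 2 := by
    by_contra hcon
    push Not at hcon
    have h2 : wt e W < ∑ _i : ι, 1 / (8 * (d : ℝ)) := by
      unfold wt
      apply Finset.sum_lt_sum_of_nonempty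
      · rw [← Finset.card_pos, Finset.card_univ, hι]
        omega
      · intro i _
        exact hcon i
    rw [Finset.sum_const, Finset.card_univ, hι] at h2
    have h3 : (4 * d) • (1 / (8 * (d : ℝ))) = 1 / 2 := by
      rw [nsmul_eq_mul]
      push_cast
      field_simp
      norm_num
    rw [h3] at h2
    linarith
  obtain ⟨i, hi⟩ := h1
  refine ⟨W.starProjection (e i), W.starProjection_apply_mem _, ?_, i, ?_⟩
  · refine (W.norm_starProjection_apply_le _).trans ?_
    rw [he.1 i]
  · have h4 : inner ℂ (e i) (W.starProjection (e i)) = (‖W.starProjection (e i)‖ ^ 2 : ℂ) := by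
      have h5 : inner ℂ (W.starProjection (e i)) (W.starProjection (e i)) =
          inner ℂ (e i) (W.starProjection (e i)) := by
        have := W.starProjection_inner_eq_zero (e i) _ (W.starProjection_apply_mem (e i))
        rw [inner_sub_left, sub_eq_zero] at this
        exact this.symm
      rw [← h5, inner_self_eq_norm_sq_to_K]
      rfl
    rw [h4]
    have h6 : ‖((‖W.starProjection (e i)‖ : ℂ) ^ 2)‖ = ‖W.starProjection (e i)‖ ^ 2 := by
      rw [norm_pow, Complex.norm_real, norm_norm]
    rw [h6]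
    exact hi

end

theorem flag_lemma : FlagStmt := by
  classical
  intro K _ _ _ ι _ e d M he hd hι V h0 hM hmono hdim Z hZ
  have hd' : (1 : ℝ) ≤ d := by exact_mod_cast hd
  have hstep : ∀ k, wt e (V (k + 1)) ≤ wt e (V k) + d := fun k => wt_le_add he (hmono k) (hdim k)
  have hex : ∃ k, (d : ℝ) + 1 / 2 ≤ wt e (V k) := by
    refine ⟨M, ?_⟩
    have h1 := wt_orthogonal he (V M)
    have h2 : wt e (V M)ᗮ = 0 := by
      rw [hM, Submodule.top_orthogonal_eq_bot, wt_bot]
    rw [h2, add_zero] at h1
    rw [h1, hι]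
    push_cast
    linarith
  have hkM : Nat.find hex ≤ M := by
    apply Nat.find_min'
    have h1 := wt_orthogonal he (V M)
    have h2 : wt e (V M)ᗮ = 0 := by
      rw [hM, Submodule.top_orthogonal_eq_bot, wt_bot]
    rw [h2, add_zero] at h1
    rw [h1, hι]
    push_cast
    linarith
  set k := Nat.find hex with hk
  have hk1 : (d : ℝ) + 1 / 2 ≤ wt e (V k) := Nat.find_spec hex
  have hk2 : wt e (V k) < 2 * d + 1 / 2 := by
    rcases Nat.eq_zero_or_pos k with h | h
    · exfalso
      rw [h, h0, wt_bot] at hk1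
      linarith
    · obtain ⟨m, hm⟩ : ∃ m, k = m + 1 := ⟨k - 1, by omega⟩
      have h3 : ¬ ((d : ℝ) + 1 / 2 ≤ wt e (V m)) := Nat.find_min hex (by omega)
      push Not at h3
      have h4 := hstep m
      rw [hm]
      linarith
  refine ⟨k, hkM, ?_, ?_⟩
  · have h1 := wt_inf_ge he (V k) Z hZ
    obtain ⟨η, hη, h2, h3⟩ := exists_of_wt hd hι (V k ⊓ Z) he (by linarith)
    exact ⟨η, hη.1, hη.2, h2, h3⟩
  · have h1 := wt_inf_ge he (V k)ᗮ Z hZ
    have h4 := wt_orthogonal he (V k)
    rw [hι] at h4
    push_cast at h4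
    obtain ⟨η, hη, h2, h3⟩ := exists_of_wt hd hι ((V k)ᗮ ⊓ Z) he (by linarith)
    exact ⟨η, hη.1, hη.2, h2, h3⟩

end Pool.Agent.Lib_helper15.Shift
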