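import Pool.Agent.Lib_helper15.Shift.Defs

/-!
Module B: division by `ω^n - 1` of functions on `ℤ/M` with frequencies in an interval (helper15).
-/

set_option autoImplicit false

open Filter Topology

namespace Pool.Agent.Lib_helper15.Shift

variable {M : ℕ} [NeZero M] {F : Type*} [AddCommGroup F] [Module ℂ F]

theorem std_ne_one {n : ZMod M} (hn : n ≠ 0) : (ZMod.stdAddChar n : ℂ) - 1 ≠ 0 := by
  intro h
  have h1 : (ZMod.stdAddChar n : ℂ) = ZMod.stdAddChar (0 : ZMod M) := by
    rw [AddChar.map_zero_eq_one]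
    exact sub_eq_zero.mp h
  exact hn (ZMod.injective_stdAddChar h1)

theorem dft_mul_sub_one (x' : ZMod M → F) (j : ZMod M) :
    ZMod.dft (fun n => ((ZMod.stdAddChar n : ℂ) - 1) • x' n) j =
      ZMod.dft x' (j - 1) - ZMod.dft x' j := by
  simp only [ZMod.dft_apply]
  rw [← Finset.sum_sub_distrib]
  refine Finset.sum_congr rfl (fun n _ => ?_)
  rw [smul_smul, mul_sub, mul_one, sub_smul]
  congr 2
  rw [← AddChar.map_add_eq_mul]
  congr 1
  ring

theorem exists_gain (x : ZMod M → F) (hx : x 0 = 0) (j₀ : ZMod M) :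
    ∃ x' : ZMod M → F, (∀ n, x n = ((ZMod.stdAddChar n : ℂ) - 1) • x' n) ∧
      ZMod.dft x' j₀ = 0 := by
  classical
  set c : F := -∑ n ∈ Finset.univ.erase (0 : ZMod M),
    (ZMod.stdAddChar (-(n * j₀)) : ℂ) • (((ZMod.stdAddChar n : ℂ) - 1)⁻¹ • x n) with hc
  refine ⟨fun n => if n = 0 then c else ((ZMod.stdAddChar n : ℂ) - 1)⁻¹ • x n, ?_, ?_⟩
  · intro n
    by_cases hn : n = 0
    · subst hn
      simp [hx]
    · simp only [hn, if_false]
      rw [smul_smul, mul_inv_cancel₀ (std_ne_one hn), one_smul]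
  · rw [ZMod.dft_apply, ← Finset.add_sum_erase _ _ (Finset.mem_univ (0 : ZMod M))]
    have h1 : ∑ n ∈ Finset.univ.erase (0 : ZMod M), (ZMod.stdAddChar (-(n * j₀)) : ℂ) •
        (if n = 0 then c else ((ZMod.stdAddChar n : ℂ) - 1)⁻¹ • x n) = -c := by
      rw [hc, neg_neg]
      refine Finset.sum_congr rfl (fun n hn => ?_)
      rw [if_neg (Finset.ne_of_mem_erase hn)]
    rw [h1]
    simp

theorem dft_rel {x x' : ZMod M → F} (h : ∀ n, x n = ((ZMod.stdAddChar n : ℂ) - 1) • x' n)
    (j : ZMod M) : ZMod.dft x j = ZMod.dft x' (j - 1) - ZMod.dft x' j := by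
  have : x = fun n => ((ZMod.stdAddChar n : ℂ) - 1) • x' n := funext h
  rw [this, dft_mul_sub_one]

theorem gain_lemma : GainStmt := by
  intro M d _ hM k
  constructor
  · intro x hx hx0
    obtain ⟨x', h1, h2⟩ := exists_gain x hx0 0
    refine ⟨x', ?_, h1⟩
    have key : ∀ i : ℕ, i < M → i < k → ZMod.dft x' (i : ZMod M) = 0 := by
      intro i
      induction i with
      | zero =>
        intro _ _
        simpa using h2
      | succ i ih =>
        intro hi hik
        have h3 := ih (by omega) (by omega)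
        have h4 := dft_rel h1 ((i + 1 : ℕ) : ZMod M)
        have h5 : ((i + 1 : ℕ) : ZMod M).val = i + 1 := ZMod.val_natCast_of_lt hi
        rw [hx _ (by rw [h5]; exact hik)] at h4
        have h6 : ((i + 1 : ℕ) : ZMod M) - 1 = (i : ZMod M) := by push_cast; ring
        rw [h6, h3, zero_sub] at h4
        exact neg_eq_zero.mp h4.symm
    intro j hj
    have := key j.val (ZMod.val_lt j) hj
    rwa [ZMod.natCast_zmod_val] at this
  · intro y hy hy0
    obtain ⟨y', h1, h2⟩ := exists_gain y hy0 (-1)
    refine ⟨y', ?_, h1⟩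
    have key : ∀ t i : ℕ, i + t + 1 = M → k ≤ i → ZMod.dft y' (i : ZMod M) = 0 := by
      intro t
      induction t with
      | zero =>
        intro i hi _
        have h3 : (i : ZMod M) = -1 := by
          have : ((i + 0 + 1 : ℕ) : ZMod M) = ((M : ℕ) : ZMod M) := by rw [hi]
          rw [ZMod.natCast_self] at this
          push_cast at this
          rw [add_zero] at this
          exact eq_neg_of_add_eq_zero_left this
        rw [h3, h2]
      | succ t ih =>
        intro i hi hik
        have h3 := ih (i + 1) (by omega) (by omega)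
        have h4 := dft_rel h1 ((i + 1 : ℕ) : ZMod M)
        have h5 : ((i + 1 : ℕ) : ZMod M).val = i + 1 := ZMod.val_natCast_of_lt (by omega)
        rw [hy _ (by rw [h5]; omega), h3, sub_zero] at h4
        have h6 : ((i + 1 : ℕ) : ZMod M) - 1 = (i : ZMod M) := by push_cast; ring
        rw [h6] at h4
        exact h4.symm
    intro j hj
    have hlt := ZMod.val_lt j
    have := key (M - 1 - j.val) j.val (by omega) hj
    rwa [ZMod.natCast_zmod_val] at this

end Pool.Agent.Lib_helper15.Shift
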