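import Pool.Agent.Lib_helper15.FiniteMult
import Pool.Agent.Lib_helper94.BShift.Defs

/-!
Operators commuting up to a factor with a power bounded operator having a unimodular eigenvalue of
finite multiplicity (helper15): a hyperinvariant subspace, given the criterion for two sided orbits.
-/

set_option autoImplicit false

open Filter Topology

namespace Pool.Agent.Lib_helper15

universe u

variable {X : Type u} [NormedAddCommGroup X] [NormedSpace ℂ X]

/-- The two sided orbit of `x` under `S` with backward steps `B`. -/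
noncomputable def orb (S B : X →L[ℂ] X) (x : X) (n : ℤ) : X :=
  if 0 ≤ n then (S ^ n.toNat) x else (B ^ (-n).toNat) x

/-- The dual orbit. -/
noncomputable def dorb (S B : X →L[ℂ] X) (w : X →L[ℂ] ℂ) (n : ℤ) : X →L[ℂ] ℂ :=
  if 0 ≤ n then w.comp (B ^ n.toNat) else w.comp (S ^ (-n).toNat)

theorem orb_natCast (S B : X →L[ℂ] X) (x : X) (n : ℕ) : orb S B x (n : ℤ) = (S ^ n) x := by
  simp [orb]

theorem orb_neg_natCast (S B : X →L[ℂ] X) (x : X) (n : ℕ) :
    orb S B x (-(n : ℤ)) = (B ^ n) x := by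
  unfold orb
  rcases Nat.eq_zero_or_pos n with h | h
  · subst h; simp
  · rw [if_neg (by omega)]
    simp

theorem dorb_natCast (S B : X →L[ℂ] X) (w : X →L[ℂ] ℂ) (n : ℕ) (z : X) :
    dorb S B w (n : ℤ) z = w ((B ^ n) z) := by
  simp [dorb]

theorem dorb_neg_natCast (S B : X →L[ℂ] X) (w : X →L[ℂ] ℂ) (n : ℕ) (z : X) :
    dorb S B w (-(n : ℤ)) z = w ((S ^ n) z) := by
  unfold dorb
  rcases Nat.eq_zero_or_pos n with h | h
  · subst h; simp
  · rw [if_neg (by omega)]
    simp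

/-- The main step. -/
theorem lambda_commuting (crit : Pool.Agent.BShift.CriterionStmt.{u}) [CompleteSpace X]
    (hrefl : Function.Surjective (NormedSpace.inclusionInDoubleDual ℂ X))
    (S T : X →L[ℂ] X) (hS : ∀ c : ℂ, S ≠ c • ContinuousLinearMap.id ℂ X)
    (lam mu : ℂ) (hTS : T * S = lam • (S * T)) (C : ℝ) (hT : ∀ n : ℕ, ‖T ^ n‖ ≤ C)
    (hmu : ‖mu‖ = 1) (hfin : FiniteDimensional ℂ (eigSp T mu)) (hne : eigSp T mu ≠ ⊥) :
    HasNontrivialHyperinvariantSubspace S := by
  classical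
  by_contra hno
  rcases finite_multiplicity_dichotomy hrefl S T hS lam mu hTS C hT hmu hfin hne with
    h | ⟨hlam, hroot, ⟨B, hBS, hBT, hSB⟩, hext⟩
  · exact hno h
  have hC0 : 0 ≤ C := (norm_nonneg _).trans (hT 0)
  have hlam0 : lam ≠ 0 := by intro h; rw [h] at hlam; simp at hlam
  have hmu0 : mu ≠ 0 := by intro h; rw [h] at hmu; simp at hmu
  have hTB : T * B = lam⁻¹ • (B * T) := by
    rw [hBT, smul_smul, inv_mul_cancel₀ hlam0, one_smul]
  have hlam' : ‖lam⁻¹‖ = 1 := by simp [hlam]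
  have hnrm : ∀ n : ℤ, ‖mu * lam ^ n‖ = 1 := by intro n; simp [hmu, hlam]
  have hzroot : ∀ j : ℤ, j ≠ 0 → lam ^ j ≠ 1 := by
    intro j hj h1
    obtain ⟨k, rfl | rfl⟩ := j.eq_nat_or_neg
    · exact hroot k (by omega) (by simpa using h1)
    · rw [zpow_neg, inv_eq_one, zpow_natCast] at h1
      exact hroot k (by omega) h1
  -- eigenspaces
  have hSE : ∀ (n : ℤ) (y : X), T y = (mu * lam ^ n) • y → T (S y) = (mu * lam ^ (n + 1)) • S y := by
    intro n y hy
    have := skew_pow_right hTS 1 y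
    simp only [pow_one] at this
    rw [this, hy, map_smul, smul_smul, zpow_add_one₀ hlam0]
    congr 1
    ring
  have hBE : ∀ (n : ℤ) (y : X), T y = (mu * lam ^ n) • y → T (B y) = (mu * lam ^ (n - 1)) • B y := by
    intro n y hy
    have := skew_pow_right hTB 1 y
    simp only [pow_one] at this
    rw [this, hy, map_smul, smul_smul, zpow_sub_one₀ hlam0]
    congr 1
    ring
  obtain ⟨x₀, hx₀, hx₀0⟩ := (Submodule.ne_bot_iff _).mp hne
  have hx₀' : T x₀ = mu • x₀ := mem_eigSp.mp hx₀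
  obtain ⟨ψ, hψ⟩ := SeparatingDual.exists_eq_one (R := ℂ) hx₀0
  let L : eigSp T mu →ₗ[ℂ] eigSp T mu :=
    { toFun := fun x => ψ (x : X) • ⟨x₀, hx₀⟩
      map_add' := fun a b => by simp [add_smul]
      map_smul' := fun c a => by simp [smul_smul] }
  obtain ⟨D, hDS, hDT, hDL⟩ := hext L
  have hD0 : ∀ x : X, T x = mu • x → D x = ψ x • x₀ := by
    intro x hx
    exact hDL ⟨x, mem_eigSp.mpr hx⟩
  set Q : ℤ → X →L[ℂ] X := fun n => ergProj hrefl hT (mu * lam ^ n) (hnrm n) with hQ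
  have hQT : ∀ n z, T (Q n z) = (mu * lam ^ n) • Q n z := fun n z => T_ergProj hrefl hT _ _ z
  have hQn : ∀ n, ‖Q n‖ ≤ C := fun n => ergProj_norm hrefl hT _ _
  have hQfix : ∀ n z, T z = (mu * lam ^ n) • z → Q n z = z := fun n z hz =>
    ergProj_eig hrefl hT _ _ hz
  have hQkill : ∀ m n z, m ≠ n → T z = (mu * lam ^ n) • z → Q m z = 0 := by
    intro m n z hmn hz
    have h1 : Q m (T z) = (mu * lam ^ m) • Q m z := ergProj_T hrefl hT _ _ z
    rw [hz, map_smul] at h1
    have h2 : (mu * lam ^ n - mu * lam ^ m) • Q m z = 0 := by rw [sub_smul, h1, sub_self]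
    rcases smul_eq_zero.mp h2 with h3 | h3
    · exfalso
      have h4 : lam ^ n = lam ^ m := by
        have := sub_eq_zero.mp h3
        exact mul_left_cancel₀ hmu0 this
      apply hzroot (n - m) (by omega)
      rw [zpow_sub₀ hlam0, h4, div_self (zpow_ne_zero _ hlam0)]
    · exact h3
  have hQS : ∀ n z, Q (n + 1) (S z) = S (Q n z) := by
    intro n z
    exact ergProj_S hrefl hTS hT hlam _ _ _ _ (by rw [zpow_add_one₀ hlam0]; ring) z
  have hQB : ∀ n z, Q (n - 1) (B z) = B (Q n z) := by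
    intro n z
    exact ergProj_S hrefl hTB hT hlam' _ _ _ _ (by rw [zpow_sub_one₀ hlam0]; ring) z
  have hQSk : ∀ (k : ℕ) (n : ℤ) (z : X), Q (n + k) ((S ^ k) z) = (S ^ k) (Q n z) := by
    intro k
    induction k with
    | zero => intro n z; simp
    | succ k ih =>
      intro n z
      have h1 : ∀ y, (S ^ (k + 1)) y = (S ^ k) (S y) := fun y => by rw [pow_succ]; rfl
      rw [h1, h1, ← hQS, ← ih]
      congr 2
      push_cast
      ring_nf
  have hQBk : ∀ (k : ℕ) (n : ℤ) (z : X), Q (n - k) ((B ^ k) z) = (B ^ k) (Q n z) := by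
    intro k
    induction k with
    | zero => intro n z; simp
    | succ k ih =>
      intro n z
      have h1 : ∀ y, (B ^ (k + 1)) y = (B ^ k) (B y) := fun y => by rw [pow_succ]; rfl
      rw [h1, h1, ← hQB, ← ih]
      congr 2
      push_cast
      ring_nf
  have hSEk : ∀ (k : ℕ) (n : ℤ) (y : X), T y = (mu * lam ^ n) • y →
      T ((S ^ k) y) = (mu * lam ^ (n + k)) • (S ^ k) y := by
    intro k
    induction k with
    | zero => intro n y hy; simpa using hy
    | succ k ih =>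
      intro n y hy
      have h1 : ∀ y, (S ^ (k + 1)) y = (S ^ k) (S y) := fun y => by rw [pow_succ]; rfl
      rw [h1, ih (n + 1) (S y) (hSE n y hy)]
      congr 3
      push_cast
      ring
  have hBEk : ∀ (k : ℕ) (n : ℤ) (y : X), T y = (mu * lam ^ n) • y →
      T ((B ^ k) y) = (mu * lam ^ (n - k)) • (B ^ k) y := by
    intro k
    induction k with
    | zero => intro n y hy; simpa using hy
    | succ k ih =>
      intro n y hy
      have h1 : ∀ y, (B ^ (k + 1)) y = (B ^ k) (B y) := fun y => by rw [pow_succ]; rfl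
      rw [h1, ih (n - 1) (B y) (hBE n y hy)]
      congr 3
      push_cast
      ring
  have hSkBk : ∀ (k : ℕ) (n : ℤ) (y : X), T y = (mu * lam ^ n) • y → (S ^ k) ((B ^ k) y) = y := by
    intro k
    induction k with
    | zero => intro n y _; simp
    | succ k ih =>
      intro n y hy
      have h1 : (B ^ (k + 1)) y = B ((B ^ k) y) := by rw [pow_succ']; rfl
      have h2 : ∀ y, (S ^ (k + 1)) y = (S ^ k) (S y) := fun y => by rw [pow_succ]; rfl
      rw [h1, h2, hSB (n - k) _ (hBEk k n y hy)]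
      exact ih n y hy
  have hBS1 : ∀ (n : ℤ) (y : X), T y = (mu * lam ^ n) • y → B (S y) = y := by
    intro n y hy
    rw [comm_apply hBS]
    exact hSB n y hy
  -- the orbit
  set u : ℤ → X := orb S B x₀ with hu
  have hx₀'' : T x₀ = (mu * lam ^ (0 : ℤ)) • x₀ := by simpa using hx₀'
  have huE : ∀ n : ℤ, T (u n) = (mu * lam ^ n) • u n := by
    intro n
    obtain ⟨k, rfl | rfl⟩ := n.eq_nat_or_neg
    · rw [hu, orb_natCast]
      simpa using hSEk k 0 x₀ hx₀''
    · rw [hu, orb_neg_natCast]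
      simpa using hBEk k 0 x₀ hx₀''
  have hSu : ∀ n : ℤ, S (u n) = u (n + 1) := by
    intro n
    rcases lt_or_ge n 0 with hn | hn
    · obtain ⟨k, rfl⟩ : ∃ k : ℕ, n = -((k + 1 : ℕ) : ℤ) := ⟨(-n - 1).toNat, by push_cast; omega⟩
      have h1 : u (-((k + 1 : ℕ) : ℤ)) = B (u (-((k + 1 : ℕ) : ℤ) + 1)) := by
        have h2 : (-((k + 1 : ℕ) : ℤ) + 1) = -(k : ℤ) := by push_cast; ring
        rw [h2, hu, orb_neg_natCast, orb_neg_natCast, pow_succ']
        rfl
      rw [h1]
      exact hSB _ _ (huE _)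
    · obtain ⟨k, rfl⟩ := Int.eq_ofNat_of_zero_le hn
      have h2 : ((k : ℤ) + 1) = ((k + 1 : ℕ) : ℤ) := by push_cast; ring
      rw [h2, hu, orb_natCast, orb_natCast, pow_succ']
      rfl
  have hBu : ∀ n : ℤ, B (u (n + 1)) = u n := by
    intro n
    rw [← hSu]
    exact hBS1 n _ (huE n)
  have hu0 : u 0 = x₀ := by
    have := orb_natCast S B x₀ 0
    simpa [hu] using this
  have hSku : ∀ (k : ℕ) (n : ℤ), (S ^ k) (u n) = u (n + k) := by
    intro k
    induction k with
    | zero => intro n; simp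
    | succ k ih =>
      intro n
      have h2 : (S ^ (k + 1)) (u n) = (S ^ k) (S (u n)) := by rw [pow_succ]; rfl
      rw [h2, hSu, ih]
      congr 1
      push_cast
      ring
  have hBku : ∀ (k : ℕ) (n : ℤ), (B ^ k) (u n) = u (n - k) := by
    intro k
    induction k with
    | zero => intro n; simp
    | succ k ih =>
      intro n
      have h2 : (B ^ (k + 1)) (u n) = (B ^ k) (B (u ((n - 1) + 1))) := by
        rw [sub_add_cancel, pow_succ]; rfl
      rw [h2, hBu, ih]
      congr 1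
      push_cast
      ring
  -- the dual orbit
  set w : X →L[ℂ] ℂ := ψ.comp (Q 0) with hw
  set v : ℤ → (X →L[ℂ] ℂ) := dorb S B w with hv
  have hw_apply : ∀ z, w z = ψ (Q 0 z) := fun z => rfl
  have hwu : ∀ n : ℤ, w (u n) = if n = 0 then 1 else 0 := by
    intro n
    rw [hw_apply]
    split_ifs with h
    · subst h
      rw [hQfix 0 _ (huE 0), hu0, hψ]
    · rw [hQkill 0 n _ (fun h' => h h'.symm) (huE n), map_zero]
  have hvu : ∀ m n : ℤ, v m (u n) = if m = n then 1 else 0 := by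
    intro m n
    obtain ⟨k, rfl | rfl⟩ := m.eq_nat_or_neg
    · rw [hv, dorb_natCast, hBku, hwu]
      congr 1
      rw [eq_iff_iff]
      omega
    · rw [hv, dorb_neg_natCast, hSku, hwu]
      congr 1
      rw [eq_iff_iff]
      omega
  have hwSB : ∀ z, w (S (B z)) = w z := by
    intro z
    rw [hw_apply, hw_apply]
    have h1 : Q 0 (S (B z)) = S (Q (-1) (B z)) := by
      have := hQS (-1) (B z)
      simpa using this
    have h2 : Q (-1) (B z) = B (Q 0 z) := by
      have := hQB 0 z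
      simpa using this
    rw [h1, h2, hSB 0 _ (hQT 0 z)]
  have hvS : ∀ n : ℤ, (v (n + 1)).comp S = v n := by
    intro n
    ext z
    show v (n + 1) (S z) = v n z
    rcases lt_or_ge n 0 with hn | hn
    · obtain ⟨k, rfl⟩ : ∃ k : ℕ, n = -((k + 1 : ℕ) : ℤ) := ⟨(-n - 1).toNat, by push_cast; omega⟩
      have h2 : (-((k + 1 : ℕ) : ℤ) + 1) = -(k : ℤ) := by push_cast; ring
      rw [h2, hv, dorb_neg_natCast, dorb_neg_natCast, pow_succ]
      rfl
    · obtain ⟨k, rfl⟩ := Int.eq_ofNat_of_zero_le hn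
      have h2 : ((k : ℤ) + 1) = ((k + 1 : ℕ) : ℤ) := by push_cast; ring
      rw [h2, hv, dorb_natCast, dorb_natCast]
      have h3 : (B ^ (k + 1)) (S z) = S (B ((B ^ k) z)) := by
        have hBS' : S * B = B * S := hBS.symm
        rw [← comm_pow_apply hBS' (k + 1) z, pow_succ']
        rfl
      rw [h3, hwSB]
  -- the rank one pieces
  have hDQ : ∀ (n : ℤ) (z : X), D (Q n z) = v n z • u n := by
    intro n z
    obtain ⟨k, rfl | rfl⟩ := n.eq_nat_or_neg
    · rw [hv, dorb_natCast, hu, orb_natCast, hw_apply]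
      have h1 : (B ^ k) (Q k z) = Q 0 ((B ^ k) z) := by
        rw [← hQBk k k z]; simp
      have h2 : Q (k : ℤ) z = (S ^ k) ((B ^ k) (Q k z)) := (hSkBk k k _ (hQT k z)).symm
      rw [h2, comm_pow_apply hDS, h1, hD0 _ (by simpa using hQT 0 ((B ^ k) z)), map_smul]
    · rw [hv, dorb_neg_natCast, hw_apply]
      have h0 : Q 0 ((S ^ k) z) = (S ^ k) (Q (-(k : ℤ)) z) := by
        rw [← hQSk k (-(k : ℤ)) z]; simp
      have h1 : (S ^ k) (D (Q (-(k : ℤ)) z) - ψ (Q 0 ((S ^ k) z)) • u (-(k : ℤ))) = 0 := by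
        rw [map_sub, map_smul, ← comm_pow_apply hDS, ← h0,
          hD0 _ (by simpa using hQT 0 ((S ^ k) z)), hSku]
        simp [hu0]
      exact sub_eq_zero.mp (pow_injective_of_not hno hS k _ h1)
  have hune : ∀ n, u n ≠ 0 := by
    intro n h0
    have := hvu n n
    rw [h0, map_zero] at this
    simp at this
  have hv0 : v 0 ≠ 0 := by
    intro h0
    have := hvu 0 0
    rw [h0] at this
    simp at this
  have hbound : ∀ n, ‖v n‖ * ‖u n‖ ≤ ‖D‖ * C := by
    intro n
    have hpos : 0 < ‖u n‖ := norm_pos_iff.mpr (hune n)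
    have h1 : ‖v n‖ ≤ ‖D‖ * C / ‖u n‖ := by
      apply ContinuousLinearMap.opNorm_le_bound _ (by positivity)
      intro z
      have h2 : ‖v n z‖ * ‖u n‖ ≤ ‖D‖ * (C * ‖z‖) := by
        calc ‖v n z‖ * ‖u n‖ = ‖D (Q n z)‖ := by rw [hDQ, norm_smul]
          _ ≤ ‖D‖ * ‖Q n z‖ := D.le_opNorm _
          _ ≤ ‖D‖ * (C * ‖z‖) := by
              gcongr
              exact (Q n).le_of_opNorm_le (hQn n) z
      rw [div_mul_eq_mul_div, le_div_iff₀ hpos]
      linarith
    calc ‖v n‖ * ‖u n‖ ≤ ‖D‖ * C / ‖u n‖ * ‖u n‖ := by gcongr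
      _ = ‖D‖ * C := by field_simp
  apply hno
  have := crit X S u v v (fun n => ‖u n‖) (max ‖S‖ ‖B‖) (‖D‖ * C) 0 hSu hvS hv0 hvu
    (fun n => norm_pos_iff.mpr (hune n))
    (fun n => by
      show ‖u (n + 1)‖ ≤ max ‖S‖ ‖B‖ * ‖u n‖
      rw [← hSu]
      calc ‖S (u n)‖ ≤ ‖S‖ * ‖u n‖ := S.le_opNorm _
        _ ≤ max ‖S‖ ‖B‖ * ‖u n‖ := by gcongr; exact le_max_left _ _)
    (fun n => by
      show ‖u n‖ ≤ max ‖S‖ ‖B‖ * ‖u (n + 1)‖
      rw [← hBu n]
      calc ‖B (u (n + 1))‖ ≤ ‖B‖ * ‖u (n + 1)‖ := B.le_opNorm _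
        _ ≤ max ‖S‖ ‖B‖ * ‖u (n + 1)‖ := by gcongr; exact le_max_right _ _)
    (fun n => le_rfl)
    (fun n => by
      show ‖v n‖ * ‖u n‖ ≤ ‖D‖ * C * (1 + |(n : ℝ)|) ^ 0
      rw [pow_zero, mul_one]
      exact hbound n)
  exact this

end Pool.Agent.Lib_helper15
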